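import Pool.Agent.H.MP_6838a0_co.B

namespace Pool.Agent.Results.MP_436edf_co.One

open Finset Matrix

open Classical in
noncomputable def lap {n : ℕ} (E : Fin n → Fin n → Prop) : Matrix (Fin n) (Fin n) ℝ :=
  diagonal (fun i => (#{j | E i j} : ℝ)) - of fun i j => if E i j then 1 else 0

def W {n : ℕ} (E : Fin n → Fin n → Prop) : Set ℝ :=
  {w | ∃ x : Fin n → ℝ, ∑ i, x i = 0 ∧ ∑ i, x i ^ 2 = 1 ∧ w = x ⬝ᵥ lap E *ᵥ x}

noncomputable def spread {n : ℕ} (E : Fin n → Fin n → Prop) : ℝ := sSup (W E) - sInf (W E)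

open Classical in
def Regular {n : ℕ} (E : Fin n → Fin n → Prop) (k : ℕ) : Prop :=
  ∀ i, #{j | E j i} = k ∧ #{j | E i j} = k

open Classical in
theorem result (n : ℕ) (hn : 3 ≤ n) (E : Fin n → Fin n → Prop) (hE : ∀ i, ¬ E i i)
    (hb : ∀ i, #{j | E i j} = #{j | E j i}) (h1 : spread E = 1) : 4 ≤ n ∧ Even n ∧
    (Regular E ((n - 2) / 2) ∨ Regular (fun i j => i ≠ j ∧ ¬ E i j) ((n - 2) / 2)) := by
  obtain ⟨a, b, -, h⟩ := (H.MP_6838a0_co.B.both (by omega) E hE hb h1.le).resolve_left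
    fun h => zero_ne_one (h.symm.trans h1)
  have c (P : Fin n → Prop) (i : Fin n) (h : ¬ P i) : #{j | P j} + #{j | i ≠ j ∧ ¬ P j} + 1 = n := by
    have := card_filter_add_card_filter_not (s := univ) P
    rw [show univ.filter (¬ P ·) = insert i (univ.filter fun j => i ≠ j ∧ ¬ P j) by grind,
      card_insert_of_notMem (by simp), card_univ, Fintype.card_fin] at this
    exact this
  refine ⟨a, b, h.imp (fun h i => ?_) fun h i => ?_⟩
  · have := h i
    have := hb i
    omega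
  · have := h i
    have := hb i
    have := c (E i) i (hE i)
    have := c (E · i) i (hE i)
    simp only [ne_comm (b := i)]
    exact ⟨by convert (by omega : #{j | i ≠ j ∧ ¬ E j i} = (n - 2) / 2),
      by convert (by omega : #{j | i ≠ j ∧ ¬ E i j} = (n - 2) / 2)⟩

end Pool.Agent.Results.MP_436edf_co.One
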